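import Pool.Agent.Helper16.AZ.Stmts

set_option autoImplicit false

open Finset Filter MeasureTheory Topology
open scoped ComplexConjugate InnerProductSpace

namespace Pool.Agent.Helper16.AZ

open Pool.Agent.Helper16.MD (MS PB Am RW Rich)
open UnitAddTorus (mFourier)

/-- the neighbourhoods of the diagonal -/
def ata_D (κ : ℝ) (Cn i : ℕ) : Set (ℂ × ℂ) :=
  {z | ‖z.1 * conj z.2 - 1‖ ≤ 8 / (κ * Cn * 4 ^ i)}

theorem ata_cont : Continuous (fun z : ℂ × ℂ => z.1 * conj z.2) :=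
  continuous_fst.mul (Complex.continuous_conj.comp continuous_snd)

theorem ata_meas (κ : ℝ) (Cn i : ℕ) : MeasurableSet (ata_D κ Cn i) := by
  apply IsClosed.measurableSet
  exact isClosed_le ((ata_cont.sub continuous_const).norm) continuous_const

theorem ata_norm {z : ℂ × ℂ} (h1 : ‖z.1‖ = 1) (h2 : ‖z.2‖ = 1) : ‖z.1 * conj z.2‖ = 1 := by
  rw [norm_mul, h1, one_mul, RCLike.norm_conj, h2]

theorem ata_sum_le {w : ℂ} (hw : ‖w‖ = 1) (H p : ℕ) :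
    ‖∑ h ∈ range H, w ^ (p * h)‖ ^ 2 ≤ (H : ℝ) ^ 2 := by
  have h1 : ‖∑ h ∈ range H, w ^ (p * h)‖ ≤ H := by
    calc _ ≤ ∑ h ∈ range H, ‖w ^ (p * h)‖ := norm_sum_le _ _
      _ = ∑ h ∈ range H, (1 : ℝ) := by
        refine Finset.sum_congr rfl fun h _ => ?_
        rw [norm_pow, hw, one_pow]
      _ = H := by simp
  exact pow_le_pow_left₀ (norm_nonneg _) h1 2

theorem ata_ae (ν : Measure ℂ) [IsFiniteMeasure ν] (hν : ∀ᵐ z ∂ν, ‖z‖ = 1) :
    ∀ᵐ z ∂(ν.prod ν), ‖z.1‖ = 1 ∧ ‖z.2‖ = 1 := by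
  have h1 := (Measure.quasiMeasurePreserving_fst (μ := ν) (ν := ν)).ae hν
  have h2 := (Measure.quasiMeasurePreserving_snd (μ := ν) (ν := ν)).ae hν
  filter_upwards [h1, h2] with z a b
  exact ⟨a, b⟩

theorem ata_int (ν : Measure ℂ) [IsFiniteMeasure ν] (hν : ∀ᵐ z ∂ν, ‖z‖ = 1) (H p : ℕ) :
    Integrable (fun z : ℂ × ℂ => ‖∑ h ∈ range H, (z.1 * conj z.2) ^ (p * h)‖ ^ 2)
      (ν.prod ν) := by
  refine Integrable.of_bound ?_ ((H : ℝ) ^ 2) ?_
  · refine Continuous.aestronglyMeasurable ?_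
    refine Continuous.pow (Continuous.norm ?_) 2
    exact continuous_finset_sum _ fun h _ => ata_cont.pow _
  · filter_upwards [ata_ae ν hν] with z hz
    rw [Real.norm_of_nonneg (sq_nonneg _)]
    exact ata_sum_le (ata_norm hz.1 hz.2) H p

theorem ata_bound (h1 : ST_AVG) (κ : ℝ) (Cn : ℕ) (ν : Measure ℂ) [IsFiniteMeasure ν] (hκ : 0 < κ)
    (hκ1 : κ ≤ 1) (hC : 4 / κ < (Cn : ℝ)) (hm : (ν.prod ν).real Set.univ ≤ 1)
    (hν : ∀ᵐ z ∂ν, ‖z‖ = 1) (i : ℕ) :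
    ∑ p ∈ PB 1 i, ∫ z : ℂ × ℂ,
      ‖∑ h ∈ range (Cn * 2 ^ i), (z.1 * conj z.2) ^ (p * h)‖ ^ 2 ∂(ν.prod ν) ≤
    ((Cn : ℝ) * 2 ^ i) ^ 2 * (1 + κ / 4 * (PB 1 i).card) +
      (ν.prod ν).real (ata_D κ Cn i) * ((PB 1 i).card * ((Cn : ℝ) * 2 ^ i) ^ 2) := by
  rw [← integral_finset_sum _ fun p _ => ata_int ν hν _ p]
  have hH : ((Cn * 2 ^ i : ℕ) : ℝ) = (Cn : ℝ) * 2 ^ i := by push_cast; ring
  have hc0 : 0 ≤ ((Cn : ℝ) * 2 ^ i) ^ 2 * (1 + κ / 4 * (PB 1 i).card) := by positivity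
  have e1 : ∀ᵐ z ∂(ν.prod ν), ∑ p ∈ PB 1 i,
      ‖∑ h ∈ range (Cn * 2 ^ i), (z.1 * conj z.2) ^ (p * h)‖ ^ 2 ≤
      ((Cn : ℝ) * 2 ^ i) ^ 2 * (1 + κ / 4 * (PB 1 i).card) +
        (ata_D κ Cn i).indicator (fun _ => (PB 1 i).card * ((Cn : ℝ) * 2 ^ i) ^ 2) z := by
    filter_upwards [ata_ae ν hν] with z hz
    have hw := ata_norm hz.1 hz.2
    by_cases hzD : z ∈ ata_D κ Cn i
    · rw [Set.indicator_of_mem hzD]
      have h3 : ∑ p ∈ PB 1 i, ‖∑ h ∈ range (Cn * 2 ^ i), (z.1 * conj z.2) ^ (p * h)‖ ^ 2 ≤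
          (PB 1 i).card * ((Cn : ℝ) * 2 ^ i) ^ 2 := by
        rw [← hH, ← nsmul_eq_mul]
        exact Finset.sum_le_card_nsmul _ _ _ fun p _ => ata_sum_le hw _ p
      linarith
    · rw [Set.indicator_of_notMem hzD, add_zero]
      exact h1 κ Cn i _ hκ hκ1 hC hw (not_le.1 hzD)
  have i1 : Integrable (fun z : ℂ × ℂ => ∑ p ∈ PB 1 i,
      ‖∑ h ∈ range (Cn * 2 ^ i), (z.1 * conj z.2) ^ (p * h)‖ ^ 2) (ν.prod ν) :=
    integrable_finset_sum _ fun p _ => ata_int ν hν _ p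
  have i2 : Integrable ((ata_D κ Cn i).indicator
      (fun _ : ℂ × ℂ => (PB 1 i).card * ((Cn : ℝ) * 2 ^ i) ^ 2)) (ν.prod ν) :=
    (integrable_const _).indicator (ata_meas κ Cn i)
  refine (integral_mono_ae i1 ((integrable_const _).add i2) e1).trans ?_
  simp only [Pi.add_apply]
  rw [integral_add (integrable_const _) i2, integral_const,
    integral_indicator_const _ (ata_meas κ Cn i), smul_eq_mul, smul_eq_mul]
  have h4 : (ν.prod ν).real Set.univ * (((Cn : ℝ) * 2 ^ i) ^ 2 * (1 + κ / 4 * (PB 1 i).card)) ≤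
      1 * (((Cn : ℝ) * 2 ^ i) ^ 2 * (1 + κ / 4 * (PB 1 i).card)) :=
    mul_le_mul_of_nonneg_right hm hc0
  linarith

theorem ata_diag (ν : Measure ℂ) [IsFiniteMeasure ν] (c : ℝ) (hm : ν Set.univ ≤ 1)
    (hc : ∀ x, ν {x} ≤ ENNReal.ofReal c) : (ν.prod ν) (Set.diagonal ℂ) ≤ ENNReal.ofReal c := by
  rw [Measure.prod_apply measurableSet_diagonal]
  have h1 : ∀ x : ℂ, Prod.mk x ⁻¹' (Set.diagonal ℂ) = {x} := by
    intro x
    ext y
    simp [eq_comm]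
  simp only [h1]
  calc ∫⁻ x, ν {x} ∂ν ≤ ∫⁻ _, ENNReal.ofReal c ∂ν := lintegral_mono hc
    _ = ENNReal.ofReal c * ν Set.univ := by rw [lintegral_const]
    _ ≤ ENNReal.ofReal c * 1 := mul_le_mul_right hm _
    _ = ENNReal.ofReal c := mul_one _

theorem ata_inter {κ : ℝ} {Cn : ℕ} (hκ : 0 < κ) (hC : 0 < (Cn : ℝ)) :
    (⋂ i, ata_D κ Cn i) ⊆ {z : ℂ × ℂ | z.1 * conj z.2 = 1} := by
  intro z hz
  rw [Set.mem_iInter] at hz
  have h1 : Tendsto (fun i : ℕ => 8 / (κ * Cn * 4 ^ i)) atTop (𝓝 0) := by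
    have h2 : Tendsto (fun i : ℕ => (8 / (κ * Cn)) * (1 / 4 : ℝ) ^ i) atTop
        (𝓝 ((8 / (κ * Cn)) * 0)) :=
      (tendsto_pow_atTop_nhds_zero_of_lt_one (by norm_num) (by norm_num)).const_mul _
    rw [mul_zero] at h2
    refine h2.congr fun i => ?_
    rw [one_div, inv_pow]
    field_simp
  have h3 : ‖z.1 * conj z.2 - 1‖ ≤ 0 := ge_of_tendsto' h1 fun i => hz i
  have h4 := norm_le_zero_iff.1 h3
  exact sub_eq_zero.1 h4

theorem ata_anti {κ : ℝ} {Cn : ℕ} (hκ : 0 < κ) (hC : 0 < (Cn : ℝ)) :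
    Antitone (ata_D κ Cn) := by
  intro i j hij z hz
  refine le_trans (show ‖z.1 * conj z.2 - 1‖ ≤ 8 / (κ * Cn * 4 ^ j) from hz) ?_
  have h1 : (4 : ℝ) ^ i ≤ 4 ^ j := pow_le_pow_right₀ (by norm_num) hij
  apply div_le_div_of_nonneg_left (by norm_num) (by positivity)
  exact mul_le_mul_of_nonneg_left h1 (by positivity)

theorem st_ATA (h1 : ST_AVG) : ST_ATA := by
  intro κ Cn ν _ hκ hκ1 hC hm hν hfr
  by_contra hcon
  push Not at hcon
  have hC0 : 0 < (Cn : ℝ) := lt_trans (by positivity) hC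
  have hm1 : ν Set.univ ≤ 1 := by
    rw [← ENNReal.ofReal_toReal (measure_ne_top ν Set.univ)]
    exact ENNReal.ofReal_le_one.2 hm
  have hpt : ∀ x, ν {x} ≤ ENNReal.ofReal (κ / 2) := by
    intro x
    by_cases hx : ‖x‖ = 1
    · rw [← ENNReal.ofReal_toReal (measure_ne_top ν {x})]
      exact ENNReal.ofReal_le_ofReal (hcon x hx).le
    · have h2 : ν {x} = 0 := by
        refine measure_mono_null ?_ (ae_iff.1 hν)
        intro y hy
        rw [Set.mem_singleton_iff] at hy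
        rw [hy]
        exact hx
      rw [h2]
      exact zero_le
  have hprod1 : (ν.prod ν) Set.univ ≤ 1 := by
    rw [← Set.univ_prod_univ, Measure.prod_prod]
    calc ν Set.univ * ν Set.univ ≤ 1 * 1 := mul_le_mul' hm1 hm1
      _ = 1 := one_mul 1
  have hprodr : (ν.prod ν).real Set.univ ≤ 1 := by
    rw [Measure.real]
    have := ENNReal.toReal_mono (by norm_num) hprod1
    simpa using this
  have hlim : Tendsto (fun i => (ν.prod ν) (ata_D κ Cn i)) atTop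
      (𝓝 ((ν.prod ν) (⋂ i, ata_D κ Cn i))) :=
    tendsto_measure_iInter_atTop (fun i => (ata_meas κ Cn i).nullMeasurableSet)
      (ata_anti hκ hC0) ⟨0, measure_ne_top _ _⟩
  have hL : (ν.prod ν) (⋂ i, ata_D κ Cn i) ≤ ENNReal.ofReal (κ / 2) := by
    refine le_trans (measure_mono (ata_inter hκ hC0)) ?_
    refine le_trans (measure_mono_ae ?_) (ata_diag ν (κ / 2) hm1 hpt)
    filter_upwards [ata_ae ν hν] with z hz hz1
    have hz1' : z.1 * conj z.2 = 1 := hz1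
    have h2 : conj z.2 * z.2 = 1 := by
      rw [mul_comm, Complex.mul_conj, Complex.normSq_eq_norm_sq, hz.2]
      norm_num
    have h3 : z.1 = z.2 := by
      calc z.1 = z.1 * (conj z.2 * z.2) := by rw [h2, mul_one]
        _ = (z.1 * conj z.2) * z.2 := by ring
        _ = z.2 := by rw [hz1', one_mul]
    exact h3
  have hL2 : (ν.prod ν) (⋂ i, ata_D κ Cn i) < ENNReal.ofReal (5 * κ / 8) := by
    refine lt_of_le_of_lt hL ?_
    rw [ENNReal.ofReal_lt_ofReal_iff (by positivity)]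
    linarith
  have hev1 : ∀ᶠ i in atTop, (ν.prod ν) (ata_D κ Cn i) < ENNReal.ofReal (5 * κ / 8) :=
    hlim.eventually_lt_const hL2
  have hev2 : ∀ᶠ i : ℕ in atTop, 32 * (i : ℝ) < κ * 2 ^ i := by
    have h2 := tendsto_pow_const_div_const_pow_of_one_lt 1 (one_lt_two (α := ℝ))
    have h3 : ∀ᶠ n : ℕ in atTop, (n : ℝ) ^ 1 / 2 ^ n < κ / 32 :=
      h2.eventually_lt_const (by positivity)
    filter_upwards [h3] with n hn
    rw [pow_one, div_lt_iff₀ (by positivity)] at hn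
    linarith
  obtain ⟨i, ⟨hR, hi⟩, hi1, hi2⟩ := (hfr.and_eventually (hev1.and hev2)).exists
  have hb := ata_bound h1 κ Cn ν hκ hκ1 hC hprodr hν i
  have hmi : (ν.prod ν).real (ata_D κ Cn i) ≤ 5 * κ / 8 := by
    rw [Measure.real]
    exact ENNReal.toReal_le_of_le_ofReal (by positivity) hi1.le
  have hH : 0 < ((Cn : ℝ) * 2 ^ i) ^ 2 := by positivity
  have hB0 : (0 : ℝ) ≤ (PB 1 i).card := Nat.cast_nonneg _
  have hRr : (2 : ℝ) ^ i ≤ 4 * i * (PB 1 i).card := by exact_mod_cast hR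
  have h5 : (ν.prod ν).real (ata_D κ Cn i) * ((PB 1 i).card * ((Cn : ℝ) * 2 ^ i) ^ 2) ≤
      5 * κ / 8 * ((PB 1 i).card * ((Cn : ℝ) * 2 ^ i) ^ 2) :=
    mul_le_mul_of_nonneg_right hmi (by positivity)
  have h6 : κ * (PB 1 i).card * ((Cn : ℝ) * 2 ^ i) ^ 2 <
      (1 + 7 / 8 * (κ * (PB 1 i).card)) * ((Cn : ℝ) * 2 ^ i) ^ 2 := by
    nlinarith
  have h7 : κ * (PB 1 i).card < 8 := by
    have := lt_of_mul_lt_mul_right h6 hH.le
    linarith
  have h8 : 32 * (i : ℝ) < 32 * i := by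
    calc 32 * (i : ℝ) < κ * 2 ^ i := hi2
      _ ≤ κ * (4 * i * (PB 1 i).card) := mul_le_mul_of_nonneg_left hRr hκ.le
      _ = 4 * i * (κ * (PB 1 i).card) := by ring
      _ ≤ 4 * i * 8 := mul_le_mul_of_nonneg_left h7.le (by positivity)
      _ = 32 * i := by ring
  exact lt_irrefl _ h8

end Pool.Agent.Helper16.AZ
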